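import Pool.Agent.R334.SAEnd

/-!
# Best approximations of an algebraic arrangement off the sails

Let `φ` be the golden ratio and `ψ` its conjugate, and let `R` be the arrangement of the lines of
slopes `1000 + φ` and `1000 + ψ`. It is algebraic. The primitive integer vectors on its sails are, up
to sign, the units `φ ^ k` of the corresponding order. If both vectors of an integer arrangement of
size at most `N` lie on the sails, then its discrepancy with `R` is at least `38000 r ^ k`, where
`r = ψ ^ 2` and `k` is such that `φ ^ k` is about `N / 1000`, whereas the pair of the unit `φ ^ k` and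
of the vector `√5 φ ^ (-k)`, which is primitive and not on the sails, has discrepancy at most
`2100 r ^ k`.
-/

set_option autoImplicit false

namespace Pool.Agent.Results.MP_b5c594_nt.BestOffSails

open Pool.Agent.R334.SA

/-- There is an algebraic arrangement of two lines such that for all sufficiently large `N` (and not
only for infinitely many) every best approximation of size at most `N` has a primitive vector which
does not lie on the geometric continued fraction of the arrangement. -/
theorem result : ∃ p q : ℝ × ℝ, Algebraic p q ∧
    (∀ N : ℤ, 1 ≤ N → ∃ v₁ v₂, IsBest p q N v₁ v₂) ∧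
    ∃ N₀ : ℤ, ∀ N : ℤ, N₀ ≤ N → ∀ v₁ v₂, IsBest p q N v₁ v₂ →
      ¬(pt v₁ ∈ gcf p q ∧ pt v₂ ∈ gcf p q) :=
  ⟨dp, dq, algebraic_dp_dq, fun _ hN => exists_best dp dq hN, 1000000,
    fun _ hN _ _ hb => best_off_sails hN hb⟩

end Pool.Agent.Results.MP_b5c594_nt.BestOffSails
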